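import Pool.Agent.U692.TV.Main

/-!
# Morphisms out of the unit of `D^b(C)` with zero tensor product (MP_93437d_al, Q1: yes)

Let `C` be a rigid monoidal abelian category with enough projective objects, with a tensor product
which is additive in each variable, and with `𝟙 ≠ 0`. Every finite symmetric tensor category is one.
If `f : 𝟙 ⟶ X` and `g : 𝟙 ⟶ Y` are morphisms of `D^b(C)` with `f ⊗ g = 0`, then there is a nonzero
projective object `W` of `C` such that `f ⊗ id_W = 0` or `g ⊗ id_W = 0` in `D^b(C)`.

Proof. Represent `f` and `g` by morphisms of bounded complexes `𝟙 ⟶ K` and `𝟙 ⟶ L`, and let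
`a : 𝟙 ⟶ K⁰ / im d` and `b : 𝟙 ⟶ L⁰ / im d` be the induced morphisms. If `f ⊗ g = 0`, then `a ⊗ b = 0`.
Both cannot be monomorphisms, as the tensor product is exact and `𝟙 ≠ 0`. If `N = ker a ≠ 0`, then
`a ⊗ id_N = 0`, because `N` is a subobject of `𝟙`. There is a projective object `P` with `N ⊗ P ≠ 0`,
and `W = N ⊗ P` is projective with `a ⊗ id_W = 0`. As `W` is projective, this gives `f ⊗ id_W = 0`.
-/

set_option autoImplicit false

open CategoryTheory CategoryTheory.Limits MonoidalCategory

universe w v u

namespace Pool.Agent.Results.MP_93437d_al.ProjectiveObject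

open Pool.Agent.U692.TV

theorem result {C : Type u} [Category.{v} C] [Abelian C] [MonoidalCategory C]
    [MonoidalPreadditive C] [RigidCategory C] [EnoughProjectives C] [HasDerivedCategory.{w} C]
    (h1 : ¬ IsZero (𝟙_ C)) (D : DTensor C) (X Y : Db C) (f : one C ⟶ X) (g : one C ⟶ Y)
    (h : D.hom f g = 0) :
    ∃ W : C, Projective W ∧ ¬ IsZero (obj W : Db C) ∧
      (D.hom f (𝟙 (obj W)) = 0 ∨ D.hom g (𝟙 (obj W)) = 0) :=
  main D h1 f g h

end Pool.Agent.Results.MP_93437d_al.ProjectiveObject
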